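import Pool.Agent.Q181.CC.Defs

/-!
# Algebras of factors
-/

set_option autoImplicit false

open MeasureTheory Set Filter
open scoped symmDiff ENNReal

namespace Pool.Agent.Q181.CC

/-- The σ-algebra of a map modulo null sets. -/
@[instance_reducible] def nullAlg {X Z : Type} [mX : MeasurableSpace X] [MeasurableSpace Z] (μ : Measure X) (φ : X → Z) :
    MeasurableSpace X where
  MeasurableSet' E := MeasurableSet[mX] E ∧ ∃ D, MeasurableSet D ∧ E =ᵐ[μ] φ ⁻¹' D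
  measurableSet_empty := ⟨MeasurableSet.empty, ∅, MeasurableSet.empty, by simp⟩
  measurableSet_compl := by
    rintro E ⟨h1, D, h2, h3⟩
    exact ⟨h1.compl, Dᶜ, h2.compl, by rw [preimage_compl]; exact h3.compl⟩
  measurableSet_iUnion := by
    intro f h
    choose h1 D h2 h3 using h
    refine ⟨MeasurableSet.iUnion h1, ⋃ i, D i, MeasurableSet.iUnion h2, ?_⟩
    rw [preimage_iUnion]
    exact Filter.EventuallyEq.countable_iUnion h3

lemma nullAlg_iff {X Z : Type} [mX : MeasurableSpace X] [MeasurableSpace Z] {μ : Measure X}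
    {φ : X → Z} {E : Set X} : MeasurableSet[nullAlg μ φ] E ↔
      MeasurableSet[mX] E ∧ ∃ D, MeasurableSet D ∧ E =ᵐ[μ] φ ⁻¹' D := Iff.rfl

/-- Borel–Cantelli closure, for a class of sets closed under upper limits. -/
lemma exists_limsup {X : Type} [mX : MeasurableSpace X] {μ : Measure X} {E : Set X}
    {Q : Set X → Prop} (hQ : ∀ f : ℕ → Set X, (∀ n, Q (f n)) → Q (limsup f atTop))
    (h : ∀ k : ℕ, ∃ G, Q G ∧ μ (E ∆ G) ≤ 2 * (2⁻¹ : ℝ≥0∞) ^ k) :
    ∃ G, Q G ∧ E =ᵐ[μ] G := by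
  choose G hG1 hG2 using h
  refine ⟨limsup G atTop, hQ _ hG1, ?_⟩
  rw [← measure_symmDiff_eq_zero_iff]
  have hsum : ∑' k, μ (E ∆ G k) ≠ ∞ := by
    have h1 : ∑' k, μ (E ∆ G k) ≤ ∑' k : ℕ, 2 * (2⁻¹ : ℝ≥0∞) ^ k := ENNReal.tsum_le_tsum hG2
    rw [ENNReal.tsum_mul_left, ENNReal.tsum_geometric, ENNReal.one_sub_inv_two, inv_inv] at h1
    exact ne_top_of_le_ne_top (by norm_num) h1
  have h0 := measure_limsup_atTop_eq_zero hsum
  refine measure_mono_null ?_ h0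
  intro x hx
  rw [mem_limsup_iff_frequently_mem]
  rcases hx with ⟨h1, h2⟩ | ⟨h1, h2⟩
  · rw [mem_limsup_iff_frequently_mem, not_frequently] at h2
    exact h2.frequently.mono fun k hk => Or.inl ⟨h1, hk⟩
  · rw [mem_limsup_iff_frequently_mem] at h1
    exact h1.mono fun k hk => Or.inr ⟨hk, h2⟩

lemma nullAlg_closed {X Z : Type} [mX : MeasurableSpace X] [MeasurableSpace Z] {μ : Measure X}
    {φ : X → Z} {E : Set X} (hE : MeasurableSet[mX] E)
    (h : ∀ k : ℕ, ∃ G, MeasurableSet[nullAlg μ φ] G ∧ μ (E ∆ G) ≤ 2 * (2⁻¹ : ℝ≥0∞) ^ k) :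
    MeasurableSet[nullAlg μ φ] E := by
  obtain ⟨G, ⟨_, D, hD, hGD⟩, hEG⟩ := exists_limsup
    (Q := fun S => MeasurableSet[nullAlg μ φ] S)
    (fun f hf => @MeasurableSet.measurableSet_limsup X (nullAlg μ φ) f hf) h
  exact ⟨hE, D, hD, hEG.trans hGD⟩

/-- A countable dense family of measurable sets of a system. -/
lemma exists_dense (A : Autom) : ∃ B : ℕ → Set A.Z, (∀ n, MeasurableSet (B n)) ∧
    ∀ E, MeasurableSet E → ∀ k : ℕ, ∃ n, A.μ (E ∆ B n) < (2⁻¹ : ℝ≥0∞) ^ k := by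
  have hs : IsSeparable A.μ := isSeparable_of_sigmaFinite A.μ
  obtain ⟨𝒜, h1, h2⟩ := exists_countable_measureDense A.μ
  obtain ⟨B, rfl⟩ := h1.exists_eq_range h2.nonempty
  refine ⟨B, fun n => h2.measurable _ ⟨n, rfl⟩, fun E hE k => ?_⟩
  obtain ⟨_, ⟨n, rfl⟩, hn⟩ := h2.approx E hE (measure_ne_top _ _) ((1 / 2 : ℝ) ^ k) (by positivity)
  refine ⟨n, hn.trans_le (le_of_eq ?_)⟩
  rw [ENNReal.ofReal_pow (by norm_num)]
  congr 1
  rw [one_div, ENNReal.ofReal_inv_of_pos (by norm_num)]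
  norm_num

/-- A dense countable subfamily of a family of measurable sets. -/
lemma exists_dense_sub (A : Autom) (S : Set (Set A.Z)) (hS : ∀ E ∈ S, MeasurableSet E)
    (hne : S.Nonempty) : ∃ E : ℕ → Set A.Z, (∀ n, E n ∈ S) ∧
    ∀ G ∈ S, ∀ k : ℕ, ∃ n, A.μ (G ∆ E n) ≤ 2 * (2⁻¹ : ℝ≥0∞) ^ k := by
  classical
  obtain ⟨B, hB1, hB2⟩ := exists_dense A
  obtain ⟨E0, hE0⟩ := hne
  let c : ℕ → ℕ → Set A.Z := fun n k =>
    if h : ∃ G ∈ S, A.μ (G ∆ B n) < (2⁻¹ : ℝ≥0∞) ^ k then h.choose else E0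
  have hc : ∀ n k, c n k ∈ S := by
    intro n k
    simp only [c]
    split_ifs with h
    · exact h.choose_spec.1
    · exact hE0
  have hc2 : ∀ n k, (∃ G ∈ S, A.μ (G ∆ B n) < (2⁻¹ : ℝ≥0∞) ^ k) →
      A.μ (c n k ∆ B n) < (2⁻¹ : ℝ≥0∞) ^ k := by
    intro n k h
    simp only [c, dif_pos h]
    exact h.choose_spec.2
  refine ⟨fun j => c j.unpair.1 j.unpair.2, fun j => hc _ _, fun G hG k => ?_⟩
  obtain ⟨n, hn⟩ := hB2 G (hS G hG) k
  refine ⟨Nat.pair n k, ?_⟩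
  simp only [Nat.unpair_pair]
  have h1 := hc2 n k ⟨G, hG, hn⟩
  calc A.μ (G ∆ c n k) ≤ A.μ (G ∆ B n) + A.μ (B n ∆ c n k) := measure_symmDiff_le _ _ _
    _ ≤ (2⁻¹ : ℝ≥0∞) ^ k + (2⁻¹ : ℝ≥0∞) ^ k := by
        refine add_le_add hn.le ?_
        rw [symmDiff_comm]
        exact h1.le
    _ = 2 * (2⁻¹ : ℝ≥0∞) ^ k := by rw [two_mul]

variable {F : Autom → Prop}

/-- The join of countably many factors is a factor in the class. -/
lemma exists_join (hF : CharClass F) (A : Autom) (B : ℕ → Autom) (φ : ∀ i, A.Z → (B i).Z)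
    (hB : ∀ i, F (B i)) (hφ : ∀ i, IsFactor A (B i) (φ i)) :
    ∃ (J : Autom) (Φ : A.Z → J.Z), F J ∧ IsFactor A J Φ ∧
      ∀ i (D : Set (B i).Z), MeasurableSet D → ∃ D', MeasurableSet D' ∧ φ i ⁻¹' D = Φ ⁻¹' D' := by
  let Φ : A.Z → ∀ i, (B i).Z := fun x i => φ i x
  have hΦ : Measurable Φ := measurable_pi_lambda _ fun i => (hφ i).meas
  have heq : ∀ᵐ x ∂A.μ, Φ (A.T x) = prodT B (Φ x) := by
    have h1 : ∀ᵐ x ∂A.μ, ∀ i, φ i (A.T x) = (B i).T (φ i x) := ae_all_iff.2 fun i => (hφ i).equi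
    filter_upwards [h1] with x hx
    funext i
    exact hx i
  have hJ : IsProbabilityMeasure (A.μ.map Φ) := Measure.isProbabilityMeasure_map hΦ.aemeasurable
  have hmp : MeasurePreserving (prodT B) (A.μ.map Φ) (A.μ.map Φ) := by
    refine ⟨(prodT B).measurable, ?_⟩
    rw [Measure.map_map (prodT B).measurable hΦ]
    have h2 : (⇑(prodT B) ∘ Φ) =ᵐ[A.μ] Φ ∘ A.T := by
      filter_upwards [heq] with x hx
      exact hx.symm
    rw [Measure.map_congr h2, ← Measure.map_map hΦ A.T.measurable, A.mp.map_eq]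
  refine ⟨joinSys B (A.μ.map Φ) hmp, Φ, ?_, ⟨hΦ, rfl, heq⟩, ?_⟩
  · refine hF.joining B hB _ hmp fun i => ?_
    rw [Measure.map_map (measurable_pi_apply i) hΦ]
    exact (hφ i).map
  · intro i D hD
    exact ⟨(fun x : ∀ i, (B i).Z => x i) ⁻¹' D, measurable_pi_apply i hD, rfl⟩

/-- The measurable sets which belong to a factor in the class. -/
def InA (F : Autom → Prop) (A : Autom) (E : Set A.Z) : Prop :=
  MeasurableSet E ∧ ∃ (B : Autom) (φ : A.Z → B.Z), F B ∧ IsFactor A B φ ∧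
    MeasurableSet[nullAlg A.μ φ] E

/-- The one-point system. -/
noncomputable def pt : Autom where
  Z := Unit
  μ := Measure.dirac ()
  T := MeasurableEquiv.refl Unit
  mp := MeasurePreserving.id _

lemma isFactor_pt (A : Autom) : IsFactor A pt (fun _ => ()) where
  meas := measurable_const
  map := by
    rw [Measure.map_const]
    simp only [measure_univ, one_smul]
    rfl
  equi := Eventually.of_forall fun _ => rfl

lemma inA_univ (hF : CharClass F) (A : Autom) : InA F A Set.univ :=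
  ⟨MeasurableSet.univ, pt, fun _ => (), hF.identity _ fun _ => rfl, isFactor_pt A,
    MeasurableSet.univ, Set.univ, MeasurableSet.univ, by simp⟩

/-- The largest algebra exists, and its members are the sets which belong to some factor in the
class. -/
lemma exists_largest (hF : CharClass F) (A : Autom) :
    ∃ 𝒟, IsLargestAlg F A 𝒟 ∧ ∀ E, MeasurableSet[𝒟] E ↔ InA F A E := by
  obtain ⟨E, hE1, hE2⟩ := exists_dense_sub A {E | InA F A E} (fun E hE => hE.1) ⟨_, inA_univ hF A⟩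
  have hE1' : ∀ n, InA F A (E n) := hE1
  choose hEm B φ hB hφ hEφ using hE1'
  obtain ⟨J, Φ, hJ, hΦ, hsub⟩ := exists_join hF A B φ hB hφ
  have hmem : ∀ G, InA F A G → MeasurableSet[nullAlg A.μ Φ] G := by
    intro G hG
    refine nullAlg_closed hG.1 fun k => ?_
    obtain ⟨n, hn⟩ := hE2 G hG k
    refine ⟨E n, ?_, hn⟩
    obtain ⟨h1, D, h2, h3⟩ := hEφ n
    obtain ⟨D', h4, h5⟩ := hsub n D h2
    exact ⟨h1, D', h4, by rw [← h5]; exact h3⟩
  refine ⟨nullAlg A.μ Φ, ⟨⟨J, Φ, hJ, hΦ, fun E => nullAlg_iff⟩, ?_⟩, fun E => ⟨fun h => ?_, hmem E⟩⟩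
  · rintro 𝒟' ⟨B', φ', hB', hφ', h⟩ G hG
    have h1 := (h G).1 hG
    exact hmem G ⟨h1.1, B', φ', hB', hφ', h1⟩
  · exact ⟨h.1, J, Φ, hJ, hΦ, h⟩

lemma largest_unique {A : Autom} {𝒟 𝒟' : MeasurableSpace A.Z} (h : IsLargestAlg F A 𝒟)
    (h' : IsLargestAlg F A 𝒟') : 𝒟 = 𝒟' :=
  le_antisymm (h'.2 _ h.1) (h.2 _ h'.1)

lemma mem_largest (hF : CharClass F) {A : Autom} {𝒟 : MeasurableSpace A.Z}
    (h : IsLargestAlg F A 𝒟) (E : Set A.Z) : MeasurableSet[𝒟] E ↔ InA F A E := by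
  obtain ⟨𝒟', h1, h2⟩ := exists_largest hF A
  rw [largest_unique h h1]
  exact h2 E

end Pool.Agent.Q181.CC
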