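import Mathlib

/-!
# Characteristic classes: definitions
-/

set_option autoImplicit false

open MeasureTheory Set Filter
open scoped symmDiff

namespace Pool.Agent.Q181.CC

/-- An automorphism of a standard probability space. -/
structure Autom where
  /-- the underlying space -/
  Z : Type
  [ms : MeasurableSpace Z]
  [sb : StandardBorelSpace Z]
  /-- the probability measure -/
  μ : Measure Z
  [prob : IsProbabilityMeasure μ]
  /-- the automorphism -/
  T : Z ≃ᵐ Z
  mp : MeasurePreserving T μ μ

attribute [instance] Autom.ms Autom.sb Autom.prob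

/-- `φ` is a factor map from `A` to `B`. (An isomorphism is a factor map in both directions.) -/
structure IsFactor (A B : Autom) (φ : A.Z → B.Z) : Prop where
  meas : Measurable φ
  map : A.μ.map φ = B.μ
  equi : ∀ᵐ x ∂A.μ, φ (A.T x) = B.T (φ x)

/-- The product transformation on a countable product. -/
def prodT (A : ℕ → Autom) : (∀ i, (A i).Z) ≃ᵐ (∀ i, (A i).Z) :=
  MeasurableEquiv.piCongrRight fun i => (A i).T

/-- The system given by an invariant measure on the countable product of the systems `A i`. -/
def joinSys (A : ℕ → Autom) (J : Measure (∀ i, (A i).Z)) [IsProbabilityMeasure J]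
    (h : MeasurePreserving (prodT A) J J) : Autom where
  Z := ∀ i, (A i).Z
  μ := J
  T := prodT A
  mp := h

/-- Characteristic classes: closed under factors (hence under isomorphism) and countable joinings,
and containing all the identity maps. (Finite joinings are factors of countable ones.) -/
structure CharClass (F : Autom → Prop) : Prop where
  factor : ∀ (A B : Autom) (φ : A.Z → B.Z), F A → IsFactor A B φ → F B
  joining : ∀ A : ℕ → Autom, (∀ i, F (A i)) → ∀ (J : Measure (∀ i, (A i).Z))
    [IsProbabilityMeasure J] (h : MeasurePreserving (prodT A) J J),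
    (∀ i, J.map (fun x => x i) = (A i).μ) → F (joinSys A J h)
  identity : ∀ A : Autom, (∀ x, A.T x = x) → F A

/-- The sub-σ-algebra `𝒟` of the system `A` is, modulo null sets, the one of a factor map onto a
member of the class `F`: the members of `𝒟` are exactly the measurable sets which are almost
everywhere equal to preimages of measurable sets under this factor map. -/
def IsFactorAlg (F : Autom → Prop) (A : Autom) (𝒟 : MeasurableSpace A.Z) : Prop :=
  ∃ (B : Autom) (φ : A.Z → B.Z), F B ∧ IsFactor A B φ ∧
    ∀ E : Set A.Z, MeasurableSet[𝒟] E ↔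
      MeasurableSet[A.ms] E ∧ ∃ D, MeasurableSet[B.ms] D ∧ E =ᵐ[A.μ] φ ⁻¹' D

/-- `𝒟` is the largest sub-σ-algebra of `A` whose factor belongs to `F`. -/
def IsLargestAlg (F : Autom → Prop) (A : Autom) (𝒟 : MeasurableSpace A.Z) : Prop :=
  IsFactorAlg F A 𝒟 ∧ ∀ 𝒟', IsFactorAlg F A 𝒟' → 𝒟' ≤ 𝒟

/-- The product of the system `A` and of the identity map of `(Y, ν)`. -/
noncomputable def prodId (A : Autom) (Y : Type) [MeasurableSpace Y] [StandardBorelSpace Y]
    (ν : Measure Y) [IsProbabilityMeasure ν] : Autom where
  Z := A.Z × Y
  μ := A.μ.prod ν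
  T := A.T.prodCongr (MeasurableEquiv.refl Y)
  mp := A.mp.prod (MeasurePreserving.id ν)

end Pool.Agent.Q181.CC
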