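import Pool.Agent.Q181.CC.Basic

/-!
# The largest characteristic factor of a product with an identity map
-/

set_option autoImplicit false

open MeasureTheory Set Filter
open scoped symmDiff ENNReal

namespace Pool.Agent.Q181.CC

set_option linter.unusedSectionVars false

variable {F : Autom → Prop}

section symbolic

/-- The shift on two-sided binary sequences. -/
def shiftE : (ℤ → Bool) ≃ᵐ (ℤ → Bool) where
  toFun x n := x (n + 1)
  invFun x n := x (n - 1)
  left_inv x := by funext n; simp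
  right_inv x := by funext n; simp
  measurable_toFun := measurable_pi_lambda _ fun n => measurable_pi_apply (n + 1)
  measurable_invFun := measurable_pi_lambda _ fun n => measurable_pi_apply (n - 1)

open Classical in
/-- The itinerary of a point with respect to a set. -/
noncomputable def itin {Z : Type} [MeasurableSpace Z] (T : Z ≃ᵐ Z) (E : Set Z) (x : Z) :
    ℤ → Bool := fun n => decide (((T.toEquiv ^ n : Equiv.Perm Z) x) ∈ E)

lemma measurable_zpow {Z : Type} [MeasurableSpace Z] (T : Z ≃ᵐ Z) (n : ℤ) :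
    Measurable (fun x => (T.toEquiv ^ n : Equiv.Perm Z) x) := by
  have h1 : ∀ k : ℕ, Measurable (fun x => (T.toEquiv ^ k : Equiv.Perm Z) x) := by
    intro k
    induction k with
    | zero => exact measurable_id
    | succ k ih =>
      have : (fun x => (T.toEquiv ^ (k + 1) : Equiv.Perm Z) x) =
          fun x => T ((T.toEquiv ^ k : Equiv.Perm Z) x) := by
        funext x
        rw [pow_succ']
        rfl
      rw [this]
      exact T.measurable.comp ih
  have h2 : ∀ k : ℕ, Measurable (fun x => ((T.toEquiv⁻¹) ^ k : Equiv.Perm Z) x) := by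
    intro k
    induction k with
    | zero => exact measurable_id
    | succ k ih =>
      have : (fun x => ((T.toEquiv⁻¹) ^ (k + 1) : Equiv.Perm Z) x) =
          fun x => T.symm (((T.toEquiv⁻¹) ^ k : Equiv.Perm Z) x) := by
        funext x
        rw [pow_succ']
        rfl
      rw [this]
      exact T.symm.measurable.comp ih
  rcases n with k | k
  · simpa using h1 k
  · have := h2 (k + 1)
    rw [Int.negSucc_eq]
    have e : (T.toEquiv ^ (-((k : ℤ) + 1)) : Equiv.Perm Z) = (T.toEquiv⁻¹) ^ (k + 1) := by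
      rw [zpow_neg, ← inv_zpow]
      norm_cast
    rw [e]
    exact this

lemma measurable_itin {Z : Type} [MeasurableSpace Z] (T : Z ≃ᵐ Z) {E : Set Z}
    (hE : MeasurableSet E) : Measurable (itin T E) := by
  refine measurable_pi_lambda _ fun n => ?_
  refine measurable_to_bool ?_
  have : (fun x => itin T E x n) ⁻¹' {true} = (fun x => (T.toEquiv ^ n : Equiv.Perm Z) x) ⁻¹' E := by
    ext x; simp [itin]
  rw [this]
  exact measurable_zpow T n hE

lemma itin_equi {Z : Type} [MeasurableSpace Z] (T : Z ≃ᵐ Z) (E : Set Z) (x : Z) :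
    itin T E (T x) = shiftE (itin T E x) := by
  classical
  funext n
  have h : (T.toEquiv ^ (n + 1) : Equiv.Perm Z) x = (T.toEquiv ^ n : Equiv.Perm Z) (T x) := by
    rw [zpow_add, zpow_one]
    rfl
  change _ = itin T E x (n + 1)
  simp only [itin, h]

lemma measurePreserving_zpow (A : Autom) (n : ℤ) :
    MeasurePreserving (fun x => (A.T.toEquiv ^ n : Equiv.Perm A.Z) x) A.μ A.μ := by
  have h1 : ∀ k : ℕ, MeasurePreserving (fun x => (A.T.toEquiv ^ k : Equiv.Perm A.Z) x) A.μ A.μ := by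
    intro k
    induction k with
    | zero => exact MeasurePreserving.id _
    | succ k ih =>
      have : (fun x => (A.T.toEquiv ^ (k + 1) : Equiv.Perm A.Z) x) =
          A.T ∘ fun x => ((A.T.toEquiv ^ k : Equiv.Perm A.Z) x) := by
        funext x
        rw [pow_succ']
        rfl
      rw [this]
      exact A.mp.comp ih
  have h2 : ∀ k : ℕ, MeasurePreserving (fun x => ((A.T.toEquiv⁻¹) ^ k : Equiv.Perm A.Z) x)
      A.μ A.μ := by
    intro k
    induction k with
    | zero => exact MeasurePreserving.id _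
    | succ k ih =>
      have : (fun x => ((A.T.toEquiv⁻¹) ^ (k + 1) : Equiv.Perm A.Z) x) =
          A.T.symm ∘ fun x => (((A.T.toEquiv⁻¹) ^ k : Equiv.Perm A.Z) x) := by
        funext x
        rw [pow_succ']
        rfl
      rw [this]
      exact (A.mp.symm A.T).comp ih
  rcases n with k | k
  · simpa using h1 k
  · have := h2 (k + 1)
    rw [Int.negSucc_eq]
    have e : (A.T.toEquiv ^ (-((k : ℤ) + 1)) : Equiv.Perm A.Z) = (A.T.toEquiv⁻¹) ^ (k + 1) := by
      rw [zpow_neg, ← inv_zpow]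
      norm_cast
    rw [e]
    exact this

/-- The symbolic factor given by a set. -/
noncomputable def symb (A : Autom) (E : Set A.Z) (hE : MeasurableSet E) : Autom where
  Z := ℤ → Bool
  μ := A.μ.map (itin A.T E)
  prob := Measure.isProbabilityMeasure_map (measurable_itin A.T hE).aemeasurable
  T := shiftE
  mp := by
    refine ⟨shiftE.measurable, ?_⟩
    rw [Measure.map_map shiftE.measurable (measurable_itin A.T hE)]
    have : (⇑shiftE ∘ itin A.T E) = itin A.T E ∘ A.T := by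
      funext x
      exact (itin_equi A.T E x).symm
    rw [this, ← Measure.map_map (measurable_itin A.T hE) A.T.measurable, A.mp.map_eq]

lemma isFactor_symb (A : Autom) (E : Set A.Z) (hE : MeasurableSet E) :
    IsFactor A (symb A E hE) (itin A.T E) where
  meas := measurable_itin A.T hE
  map := rfl
  equi := Eventually.of_forall fun x => itin_equi A.T E x

/-- If `Φ : C → J` and `Ψ : C → A` are factor maps and the preimage of `E` under `Ψ` is equal to the
preimage of a set under `Φ`, then `E` belongs to a factor of `J`. -/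
lemma inA_of_pull (hF : CharClass F) {C J A : Autom} {Φ : C.Z → J.Z} {Ψ : C.Z → A.Z}
    (hJ : F J) (hΦ : IsFactor C J Φ) (hΨ : IsFactor C A Ψ) {E : Set A.Z} (hE : MeasurableSet E)
    (h : MeasurableSet[nullAlg C.μ Φ] (Ψ ⁻¹' E)) : InA F A E := by
  classical
  obtain ⟨_, G, hG, hEG⟩ := h
  -- equivariance of all powers
  have hpow : ∀ {D : Autom} {Θ : C.Z → D.Z}, IsFactor C D Θ → ∀ n : ℤ, ∀ᵐ x ∂C.μ,
      Θ ((C.T.toEquiv ^ n : Equiv.Perm C.Z) x) = (D.T.toEquiv ^ n : Equiv.Perm D.Z) (Θ x) := by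
    intro D Θ hΘ n
    have h1 : ∀ k : ℕ, ∀ᵐ x ∂C.μ,
        Θ ((C.T.toEquiv ^ k : Equiv.Perm C.Z) x) = (D.T.toEquiv ^ k : Equiv.Perm D.Z) (Θ x) := by
      intro k
      induction k with
      | zero => exact Eventually.of_forall fun x => rfl
      | succ k ih =>
        have h2 := (measurePreserving_zpow C k).quasiMeasurePreserving.ae hΘ.equi
        filter_upwards [ih, h2] with x hx1 hx2
        rw [pow_succ', pow_succ']
        simp only [zpow_natCast] at hx2
        change Θ (C.T ((C.T.toEquiv ^ k : Equiv.Perm C.Z) x)) =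
          D.T ((D.T.toEquiv ^ k : Equiv.Perm D.Z) (Θ x))
        rw [hx2, hx1]
    rcases n with k | k
    · simpa using h1 k
    · -- negative powers
      have h2 := (measurePreserving_zpow C (Int.negSucc k)).quasiMeasurePreserving.ae (h1 (k + 1))
      filter_upwards [h2] with x hx
      have e1 : (C.T.toEquiv ^ (k + 1) : Equiv.Perm C.Z)
          ((C.T.toEquiv ^ (Int.negSucc k) : Equiv.Perm C.Z) x) = x := by
        rw [zpow_negSucc]
        exact Equiv.apply_symm_apply _ _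
      rw [e1] at hx
      rw [hx, zpow_negSucc]
      exact (Equiv.symm_apply_apply (D.T.toEquiv ^ (k + 1) : Equiv.Perm D.Z) _).symm
  have hitin : (itin A.T E ∘ Ψ) =ᵐ[C.μ] (itin J.T G ∘ Φ) := by
    have h1 : ∀ᵐ x ∂C.μ, ∀ n : ℤ, ((C.T.toEquiv ^ n : Equiv.Perm C.Z) x ∈ Ψ ⁻¹' E ↔
        (C.T.toEquiv ^ n : Equiv.Perm C.Z) x ∈ Φ ⁻¹' G) := by
      rw [ae_all_iff]
      intro n
      exact (measurePreserving_zpow C n).quasiMeasurePreserving.ae hEG.mem_iff
    filter_upwards [h1, ae_all_iff.2 (hpow hΨ), ae_all_iff.2 (hpow hΦ)] with x hx1 hx2 hx3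
    funext n
    simp only [Function.comp_apply, itin]
    rw [← hx2 n, ← hx3 n]
    exact decide_eq_decide.2 (hx1 n)
  -- the symbolic system is a factor of J
  have hfac : IsFactor J (symb A E hE) (itin J.T G) := by
    refine ⟨measurable_itin J.T hG, ?_, Eventually.of_forall fun x => itin_equi J.T G x⟩
    change J.μ.map (itin J.T G) = A.μ.map (itin A.T E)
    rw [← hΦ.map, Measure.map_map (measurable_itin J.T hG) hΦ.meas, Measure.map_congr hitin.symm,
      ← Measure.map_map (measurable_itin A.T hE) hΨ.meas, hΨ.map]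
  refine ⟨hE, symb A E hE, itin A.T E, hF.factor J _ _ hJ hfac, isFactor_symb A E hE, hE,
    {ω : ℤ → Bool | ω 0 = true}, ?_, ?_⟩
  · exact (measurable_pi_apply (X := fun _ : ℤ => Bool) 0) (measurableSet_singleton true)
  · refine Eventually.of_forall fun x => ?_
    apply propext
    change x ∈ E ↔ decide _ = true
    simp

end symbolic

section product

variable {Y : Type} [MeasurableSpace Y] [StandardBorelSpace Y] {ν : Measure Y}
  [IsProbabilityMeasure ν]

/-- The identity system. -/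
noncomputable def idSys (Y : Type) [MeasurableSpace Y] [StandardBorelSpace Y] (ν : Measure Y)
    [IsProbabilityMeasure ν] : Autom where
  Z := Y
  μ := ν
  T := MeasurableEquiv.refl Y
  mp := MeasurePreserving.id ν

lemma isFactor_fst (A : Autom) : IsFactor (prodId A Y ν) A (Prod.fst : A.Z × Y → A.Z) where
  meas := measurable_fst
  map := by
    change (A.μ.prod ν).map Prod.fst = A.μ
    rw [Measure.map_fst_prod, measure_univ, one_smul]
  equi := Eventually.of_forall fun _ => rfl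

lemma isFactor_snd (A : Autom) :
    IsFactor (prodId A Y ν) (idSys Y ν) (Prod.snd : A.Z × Y → Y) where
  meas := measurable_snd
  map := by
    change (A.μ.prod ν).map Prod.snd = ν
    rw [Measure.map_snd_prod, measure_univ, one_smul]
  equi := Eventually.of_forall fun _ => rfl

lemma IsFactor.comp {A B C : Autom} {φ : A.Z → B.Z} {ψ : B.Z → C.Z} (hφ : IsFactor A B φ)
    (hψ : IsFactor B C ψ) : IsFactor A C (ψ ∘ φ) where
  meas := hψ.meas.comp hφ.meas
  map := by rw [← Measure.map_map hψ.meas hφ.meas, hφ.map, hψ.map]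
  equi := by
    have h1 : ∀ᵐ x ∂A.μ, ψ (B.T (φ x)) = C.T (ψ (φ x)) := by
      have := hψ.equi
      rw [← hφ.map] at this
      exact ae_of_ae_map hφ.meas.aemeasurable this
    filter_upwards [h1, hφ.equi] with x h2 h3
    simp only [Function.comp_apply]
    rw [h3, h2]

lemma inA_fst (A : Autom) {E : Set A.Z} (hE : InA F A E) :
    InA F (prodId A Y ν) ((Prod.fst : A.Z × Y → A.Z) ⁻¹' E) := by
  obtain ⟨h1, B, φ, hB, hφ, _, D, hD, hED⟩ := hE
  refine ⟨measurable_fst h1, B, φ ∘ Prod.fst, hB, (isFactor_fst A).comp hφ, measurable_fst h1, D, hD,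
    ?_⟩
  have h7 : Measure.QuasiMeasurePreserving (Prod.fst : A.Z × Y → A.Z) (A.μ.prod ν) A.μ :=
    Measure.quasiMeasurePreserving_fst
  exact h7.preimage_ae_eq hED

lemma inA_snd (hF : CharClass F) (A : Autom) {E : Set Y} (hE : MeasurableSet E) :
    InA F (prodId A Y ν) ((Prod.snd : A.Z × Y → Y) ⁻¹' E) :=
  ⟨measurable_snd hE, idSys Y ν, Prod.snd, hF.identity _ fun _ => rfl, isFactor_snd A,
    measurable_snd hE, E, hE, EventuallyEq.rfl⟩

/-- First inclusion. -/
lemma prod_le (hF : CharClass F) (A : Autom) {𝒟 : MeasurableSpace A.Z}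
    (h𝒟 : IsLargestAlg F A 𝒟) {𝒟₂ : MeasurableSpace (A.Z × Y)}
    (h𝒟₂ : IsLargestAlg F (prodId A Y ν) 𝒟₂) :
    @Prod.instMeasurableSpace A.Z Y 𝒟 inferInstance ≤ 𝒟₂ := by
  refine sup_le ?_ ?_
  · rintro _ ⟨E, hE, rfl⟩
    exact (mem_largest hF h𝒟₂ _).2 (inA_fst A ((mem_largest hF h𝒟 E).1 hE))
  · rintro _ ⟨E, hE, rfl⟩
    exact (mem_largest hF h𝒟₂ _).2 (inA_snd hF A hE)

/-- The section of a set. -/
def sec {A : Autom} (E : Set (A.Z × Y)) (y : Y) : Set A.Z := (fun x => (x, y)) ⁻¹' E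

lemma measurableSet_sec {A : Autom} {E : Set (A.Z × Y)} (hE : MeasurableSet E) (y : Y) :
    MeasurableSet (sec E y) := measurable_prodMk_right hE

lemma measurable_dist {A : Autom} {E : Set (A.Z × Y)} (hE : MeasurableSet E) {B : Set A.Z}
    (hB : MeasurableSet B) : Measurable (fun y => A.μ (sec E y ∆ B)) := by
  have h1 : MeasurableSet (E ∆ (B ×ˢ (Set.univ : Set Y))) := hE.symmDiff (hB.prod MeasurableSet.univ)
  have h2 := measurable_measure_prodMk_right (μ := A.μ) h1
  have h3 : (fun y : Y => A.μ (sec E y ∆ B)) =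
      fun y => A.μ ((fun x => (x, y)) ⁻¹' (E ∆ (B ×ˢ (Set.univ : Set Y)))) := by
    funext y
    congr 1
    ext x
    simp [sec, Set.mem_symmDiff]
  rw [h3]
  exact h2

/-- Almost every point is in the essential range. -/
lemma ess_range {A : Autom} {E : Set (A.Z × Y)} (hE : MeasurableSet E) :
    ∀ᵐ y ∂ν, ∀ k : ℕ, 0 < ν {y' | A.μ (sec E y' ∆ sec E y) ≤ 2 * (2⁻¹ : ℝ≥0∞) ^ k} := by
  obtain ⟨B, hB1, hB2⟩ := exists_dense A
  have h1 : ∀ n k : ℕ, ∀ᵐ y ∂ν, A.μ (sec E y ∆ B n) < (2⁻¹ : ℝ≥0∞) ^ k →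
      0 < ν {y' | A.μ (sec E y' ∆ B n) < (2⁻¹ : ℝ≥0∞) ^ k} := by
    intro n k
    by_cases h : ν {y' | A.μ (sec E y' ∆ B n) < (2⁻¹ : ℝ≥0∞) ^ k} = 0
    · have h2 : ∀ᵐ y ∂ν, ¬ (A.μ (sec E y ∆ B n) < (2⁻¹ : ℝ≥0∞) ^ k) := by
        rw [ae_iff]
        simpa using h
      filter_upwards [h2] with y hy h3
      exact absurd h3 hy
    · exact Eventually.of_forall fun y _ => pos_iff_ne_zero.2 h
  have h2 : ∀ᵐ y ∂ν, ∀ n k : ℕ, A.μ (sec E y ∆ B n) < (2⁻¹ : ℝ≥0∞) ^ k →
      0 < ν {y' | A.μ (sec E y' ∆ B n) < (2⁻¹ : ℝ≥0∞) ^ k} :=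
    ae_all_iff.2 fun n => ae_all_iff.2 fun k => h1 n k
  filter_upwards [h2] with y hy k
  obtain ⟨n, hn⟩ := hB2 (sec E y) (measurableSet_sec hE y) k
  refine (hy n k hn).trans_le (measure_mono ?_)
  intro y' hy'
  simp only [mem_ofPred_eq] at hy' ⊢
  calc A.μ (sec E y' ∆ sec E y) ≤ A.μ (sec E y' ∆ B n) + A.μ (B n ∆ sec E y) :=
        measure_symmDiff_le _ _ _
    _ ≤ (2⁻¹ : ℝ≥0∞) ^ k + (2⁻¹ : ℝ≥0∞) ^ k := by
        refine add_le_add hy'.le ?_
        rw [symmDiff_comm]
        exact hn.le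
    _ = 2 * (2⁻¹ : ℝ≥0∞) ^ k := by rw [two_mul]

/-- Independent trials succeed. -/
lemma trials {B : Set Y} (hB : MeasurableSet B) (hpos : 0 < ν B) :
    ∀ᵐ y ∂(Measure.infinitePi fun _ : ℕ => ν), ∃ i, y i ∈ B := by
  rw [ae_iff]
  simp only [not_exists]
  have hlt : ν Bᶜ < 1 := by
    rw [prob_compl_eq_one_sub hB]
    exact ENNReal.sub_lt_self ENNReal.one_ne_top one_ne_zero hpos.ne'
  have h1 : ∀ n : ℕ, (Measure.infinitePi fun _ : ℕ => ν) {y | ∀ i, y i ∉ B} ≤ (ν Bᶜ) ^ n := by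
    intro n
    have h2 := Measure.infinitePi_pi (fun _ : ℕ => ν) (s := Finset.range n) (t := fun _ => Bᶜ)
      (fun _ _ => hB.compl)
    rw [Finset.prod_const, Finset.card_range] at h2
    rw [← h2]
    refine measure_mono fun y hy i _ => hy i
  exact le_antisymm (ge_of_tendsto' (ENNReal.tendsto_pow_atTop_nhds_zero_of_lt_one hlt) h1) bot_le

lemma isFactor_coord (A : Autom) (i : ℕ) :
    IsFactor (prodId A (ℕ → Y) (Measure.infinitePi fun _ : ℕ => ν)) (prodId A Y ν)
      (fun z : A.Z × (ℕ → Y) => (z.1, z.2 i)) where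
  meas := measurable_fst.prodMk ((measurable_pi_apply i).comp measurable_snd)
  map := by
    have h1 : MeasurePreserving (fun y : ℕ → Y => y i) (Measure.infinitePi fun _ : ℕ => ν) ν :=
      measurePreserving_eval_infinitePi (fun _ : ℕ => ν) i
    exact ((MeasurePreserving.id A.μ).prod h1).map_eq
  equi := Eventually.of_forall fun _ => rfl

/-- The sections of a set of a factor in the class belong to a factor in the class. -/
lemma inA_sec (hF : CharClass F) (A : Autom) {E : Set (A.Z × Y)}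
    (hE : InA F (prodId A Y ν) E) : ∀ᵐ y ∂ν, InA F A (sec E y) := by
  classical
  obtain ⟨hEm, B, φ, hB, hφ, _, D, hD, hED⟩ := hE
  let νN : Measure (ℕ → Y) := Measure.infinitePi fun _ : ℕ => ν
  let C : Autom := prodId A (ℕ → Y) νN
  let Ψ : ℕ → A.Z × (ℕ → Y) → A.Z × Y := fun i z => (z.1, z.2 i)
  let Bf : ℕ → Autom := fun n => Nat.casesOn n (idSys (ℕ → Y) νN) (fun _ => B)
  let φf : ∀ n, C.Z → (Bf n).Z := fun n => Nat.casesOn n
    (fun z : A.Z × (ℕ → Y) => z.2) (fun i => fun z : A.Z × (ℕ → Y) => φ (Ψ i z))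
  obtain ⟨J, Φ, hJ, hΦ, hsub⟩ := exists_join hF C Bf φf
    (fun n => by
      cases n
      · exact hF.identity _ fun _ => rfl
      · exact hB)
    (fun n => by
      cases n with
      | zero => exact isFactor_snd A
      | succ i => exact (isFactor_coord A i).comp hφ)
  have hEi : ∀ i, MeasurableSet[nullAlg C.μ Φ] (Ψ i ⁻¹' E) := by
    intro i
    refine ⟨(isFactor_coord (ν := ν) A i).meas hEm, ?_⟩
    obtain ⟨D', h5, h6⟩ := hsub (i + 1) D hD
    refine ⟨D', h5, ?_⟩
    rw [← h6]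
    have h7 : Measure.QuasiMeasurePreserving (Ψ i) C.μ (prodId A Y ν).μ :=
      (MeasurePreserving.mk (isFactor_coord (ν := ν) A i).meas
        (isFactor_coord (ν := ν) A i).map).quasiMeasurePreserving
    exact h7.preimage_ae_eq hED
  have hV : ∀ V : Set (ℕ → Y), MeasurableSet V →
      MeasurableSet[nullAlg C.μ Φ] ((Prod.snd : A.Z × (ℕ → Y) → (ℕ → Y)) ⁻¹' V) := by
    intro V hVm
    refine ⟨measurable_snd hVm, ?_⟩
    obtain ⟨D', h5, h6⟩ := hsub 0 V hVm
    refine ⟨D', h5, ?_⟩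
    rw [← h6]
    exact EventuallyEq.rfl
  filter_upwards [ess_range (ν := ν) hEm] with y0 hy0
  refine inA_of_pull hF hJ hΦ (isFactor_fst A) (measurableSet_sec hEm y0) ?_
  refine nullAlg_closed (measurable_fst (measurableSet_sec hEm y0)) fun k => ?_
  set Bk : Set Y := {y' | A.μ (sec E y' ∆ sec E y0) ≤ 2 * (2⁻¹ : ℝ≥0∞) ^ k} with hBk
  have hBkm : MeasurableSet Bk :=
    measurableSet_le (measurable_dist hEm (measurableSet_sec hEm y0)) measurable_const
  let V : ℕ → Set (ℕ → Y) := fun i => {y | y i ∈ Bk ∧ ∀ j < i, y j ∉ Bk}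
  have hVm : ∀ i, MeasurableSet (V i) := by
    intro i
    refine MeasurableSet.inter (measurable_pi_apply (X := fun _ : ℕ => Y) i hBkm) ?_
    have : {y : ℕ → Y | ∀ j < i, y j ∉ Bk} = ⋂ j ∈ Finset.range i, (fun y => y j) ⁻¹' Bkᶜ := by
      ext y; simp
    change MeasurableSet {y : ℕ → Y | ∀ j < i, y j ∉ Bk}
    rw [this]
    exact Finset.measurableSet_biInter _ fun j _ =>
      measurable_pi_apply (X := fun _ : ℕ => Y) j hBkm.compl
  let S0 : Set (A.Z × (ℕ → Y)) := Prod.fst ⁻¹' sec E y0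
  let GG : Set (A.Z × (ℕ → Y)) := ⋃ i, (Ψ i ⁻¹' E ∩ Prod.snd ⁻¹' (V i))
  have hS0 : MeasurableSet S0 := measurable_fst (measurableSet_sec hEm y0)
  have hGm : MeasurableSet GG :=
    MeasurableSet.iUnion fun i => ((isFactor_coord (ν := ν) A i).meas hEm).inter
      (measurable_snd (hVm i))
  have hmain : (A.μ.prod νN) (S0 ∆ GG) ≤ 2 * (2⁻¹ : ℝ≥0∞) ^ k := by
    rw [Measure.prod_apply_symm (hS0.symmDiff hGm)]
    have hbd : ∀ᵐ y ∂νN, A.μ ((fun x => (x, y)) ⁻¹' (S0 ∆ GG)) ≤ 2 * (2⁻¹ : ℝ≥0∞) ^ k := by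
      filter_upwards [trials hBkm (hy0 k)] with y hy
      -- the first success
      set i := Nat.find hy with hi
      have hi1 : y i ∈ Bk := Nat.find_spec hy
      have hi2 : ∀ j < i, y j ∉ Bk := fun j hj => Nat.find_min hy hj
      have hsec : (fun x => (x, y)) ⁻¹' (S0 ∆ GG) = sec E (y i) ∆ sec E y0 := by
        rw [symmDiff_comm (sec E (y i))]
        have h8 : ∀ x, (x, y) ∈ GG ↔ x ∈ sec E (y i) := by
          intro x
          simp only [GG, mem_iUnion, mem_inter_iff, mem_preimage]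
          constructor
          · rintro ⟨j, h9, h10, h11⟩
            have : j = i := by
              rcases lt_trichotomy j i with h | h | h
              · exact absurd h10 (hi2 j h)
              · exact h
              · exact absurd hi1 (h11 i h)
            rw [← this]
            exact h9
          · intro h9
            exact ⟨i, h9, hi1, hi2⟩
        ext x
        rw [mem_preimage, Set.mem_symmDiff, Set.mem_symmDiff, h8 x]
        rfl
      rw [hsec]
      exact hi1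
    calc ∫⁻ y, A.μ ((fun x => (x, y)) ⁻¹' (S0 ∆ GG)) ∂νN
        ≤ ∫⁻ _, 2 * (2⁻¹ : ℝ≥0∞) ^ k ∂νN := lintegral_mono_ae hbd
      _ = 2 * (2⁻¹ : ℝ≥0∞) ^ k := by simp
  exact ⟨GG, MeasurableSet.iUnion fun i => (hEi i).inter (hV _ (hVm i)), hmain⟩

/-- A set almost all of whose sections belong to a sub-σ-algebra is almost everywhere equal to a
member of the product σ-algebra. -/
lemma exists_prod_of_sec (A : Autom) {E : Set (A.Z × Y)} (hEm : MeasurableSet E)
    (𝒟 : Set (Set A.Z)) (Q : Set (A.Z × Y) → Prop) (hQ0 : Q ∅)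
    (hQl : ∀ f : ℕ → Set (A.Z × Y), (∀ n, Q (f n)) → Q (limsup f atTop))
    (hQu : ∀ f : ℕ → Set (A.Z × Y), (∀ n, Q (f n)) → Q (⋃ n, f n))
    (h𝒬 : ∀ S ∈ 𝒟, ∀ V : Set Y, MeasurableSet V → Q (S ×ˢ V))
    (hle : ∀ S, Q S → MeasurableSet S)
    (hsec : ∀ᵐ y ∂ν, sec E y ∈ 𝒟) :
    ∃ G, Q G ∧ E =ᵐ[A.μ.prod ν] G := by
  classical
  obtain ⟨B, hB1, hB2⟩ := exists_dense A
  refine exists_limsup hQl fun k => ?_
  let V : ℕ → Set Y := fun n => {y | A.μ (sec E y ∆ B n) < (2⁻¹ : ℝ≥0∞) ^ k ∧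
    ∀ m < n, ¬ A.μ (sec E y ∆ B m) < (2⁻¹ : ℝ≥0∞) ^ k}
  have hVm : ∀ n, MeasurableSet (V n) := by
    intro n
    refine (measurableSet_lt (measurable_dist hEm (hB1 n)) measurable_const).inter ?_
    have : {y : Y | ∀ m < n, ¬ A.μ (sec E y ∆ B m) < (2⁻¹ : ℝ≥0∞) ^ k} =
        ⋂ m ∈ Finset.range n, {y | A.μ (sec E y ∆ B m) < (2⁻¹ : ℝ≥0∞) ^ k}ᶜ := by
      ext y; simp
    change MeasurableSet {y : Y | ∀ m < n, ¬ A.μ (sec E y ∆ B m) < (2⁻¹ : ℝ≥0∞) ^ k}
    rw [this]
    exact Finset.measurableSet_biInter _ fun m _ =>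
      (measurableSet_lt (measurable_dist hEm (hB1 m)) measurable_const).compl
  let G : ℕ → Set (A.Z × Y) := fun n =>
    if h : ∃ y ∈ V n, sec E y ∈ 𝒟 then (sec E h.choose) ×ˢ V n else ∅
  have hGm : ∀ n, Q (G n) := by
    intro n
    simp only [G]
    split_ifs with h
    · exact h𝒬 _ h.choose_spec.2 _ (hVm n)
    · exact hQ0
  have hGun : Q (⋃ n, G n) := hQu _ hGm
  refine ⟨⋃ n, G n, hGun, ?_⟩
  rw [Measure.prod_apply_symm (hEm.symmDiff (hle _ hGun))]
  have hbd : ∀ᵐ y ∂ν, A.μ ((fun x => (x, y)) ⁻¹' (E ∆ ⋃ n, G n)) ≤ 2 * (2⁻¹ : ℝ≥0∞) ^ k := by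
    filter_upwards [hsec] with y hy
    have hex : ∃ n, A.μ (sec E y ∆ B n) < (2⁻¹ : ℝ≥0∞) ^ k := hB2 _ (measurableSet_sec hEm y) k
    set n := Nat.find hex with hn
    have hyV : y ∈ V n := ⟨Nat.find_spec hex, fun m hm => Nat.find_min hex hm⟩
    have hcond : ∃ y ∈ V n, sec E y ∈ 𝒟 := ⟨y, hyV, hy⟩
    have h8 : ∀ x, (x, y) ∈ (⋃ n, G n) ↔ x ∈ sec E hcond.choose := by
      intro x
      simp only [mem_iUnion]
      constructor
      · rintro ⟨j, hj⟩
        simp only [G] at hj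
        split_ifs at hj with h
        · have hjn : j = n := by
            have h9 : y ∈ V j := hj.2
            rcases lt_trichotomy j n with h' | h' | h'
            · exact absurd h9.1 (hyV.2 j h')
            · exact h'
            · exact absurd hyV.1 (h9.2 n h')
          subst hjn
          exact hj.1
        · exact absurd hj (Set.notMem_empty _)
      · intro hx
        refine ⟨n, ?_⟩
        simp only [G]
        rw [dif_pos hcond]
        exact ⟨hx, hyV⟩
    have hset : (fun x => (x, y)) ⁻¹' (E ∆ ⋃ n, G n) = sec E y ∆ sec E hcond.choose := by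
      ext x
      rw [mem_preimage, Set.mem_symmDiff, Set.mem_symmDiff, h8 x]
      rfl
    rw [hset]
    calc A.μ (sec E y ∆ sec E hcond.choose)
        ≤ A.μ (sec E y ∆ B n) + A.μ (B n ∆ sec E hcond.choose) := measure_symmDiff_le _ _ _
      _ ≤ (2⁻¹ : ℝ≥0∞) ^ k + (2⁻¹ : ℝ≥0∞) ^ k := by
          refine add_le_add hyV.1.le ?_
          rw [symmDiff_comm]
          exact hcond.choose_spec.1.1.le
      _ = 2 * (2⁻¹ : ℝ≥0∞) ^ k := by rw [two_mul]
  calc ∫⁻ y, A.μ ((fun x => (x, y)) ⁻¹' (E ∆ ⋃ n, G n)) ∂ν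
      ≤ ∫⁻ _, 2 * (2⁻¹ : ℝ≥0∞) ^ k ∂ν := lintegral_mono_ae hbd
    _ = 2 * (2⁻¹ : ℝ≥0∞) ^ k := by simp

/-- **Main theorem.** -/
theorem main (hF : CharClass F) (A : Autom) {𝒟 : MeasurableSpace A.Z}
    (h𝒟 : IsLargestAlg F A 𝒟) {𝒟₂ : MeasurableSpace (A.Z × Y)}
    (h𝒟₂ : IsLargestAlg F (prodId A Y ν) 𝒟₂) (E : Set (A.Z × Y)) :
    MeasurableSet[𝒟₂] E ↔ MeasurableSet[(prodId A Y ν).ms] E ∧
      ∃ E', MeasurableSet[@Prod.instMeasurableSpace A.Z Y 𝒟 inferInstance] E' ∧
        E =ᵐ[(prodId A Y ν).μ] E' := by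
  have hle : @Prod.instMeasurableSpace A.Z Y 𝒟 inferInstance ≤ (prodId A Y ν).ms := by
    refine sup_le ?_ ?_
    · rintro _ ⟨S, hS, rfl⟩
      exact @measurable_fst A.Z Y A.ms _ _ ((mem_largest hF h𝒟 S).1 hS).1
    · rintro _ ⟨S, hS, rfl⟩
      exact @measurable_snd A.Z Y A.ms _ _ hS
  constructor
  · intro hE
    have h1 := (mem_largest hF h𝒟₂ E).1 hE
    refine ⟨h1.1, ?_⟩
    have h2 := inA_sec hF A h1
    refine exists_prod_of_sec A h1.1 {S | InA F A S}
      (fun S => MeasurableSet[@Prod.instMeasurableSpace A.Z Y 𝒟 inferInstance] S) ?_ ?_ ?_ ?_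
      (fun S hS => hle S hS) h2
    · exact @MeasurableSet.empty _ (@Prod.instMeasurableSpace A.Z Y 𝒟 inferInstance)
    · intro f hf
      exact @MeasurableSet.measurableSet_limsup _
        (@Prod.instMeasurableSpace A.Z Y 𝒟 inferInstance) f hf
    · intro f hf
      exact @MeasurableSet.iUnion _ _ (@Prod.instMeasurableSpace A.Z Y 𝒟 inferInstance) _ f hf
    · intro S hS V hV
      exact @MeasurableSet.prod A.Z Y 𝒟 _ S V ((mem_largest hF h𝒟 S).2 hS) hV
  · rintro ⟨hEm, E', hE', hEE'⟩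
    have h1 := (mem_largest hF h𝒟₂ E').1 (prod_le hF A h𝒟 h𝒟₂ _ hE')
    refine (mem_largest hF h𝒟₂ E).2 ?_
    obtain ⟨_, B, φ, hB, hφ, _, D, hD, hED⟩ := h1
    exact ⟨hEm, B, φ, hB, hφ, hEm, D, hD, hEE'.trans hED⟩

end product

end Pool.Agent.Q181.CC
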